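import Pool.Agent.Y160.FT.Stmts

/-!
Presentations of the rings in the tower of Kummer extensions: `StRes`, `StPres`, `StPres0`
(helper46, job 435 of helper160).
-/

set_option autoImplicit false

open Polynomial

namespace Pool.Agent.Y46.FT

open Pool.Agent.Y160.FT

section

variable {k R : Type} [Field k] [CommRing R] [Algebra k R]

/-- evaluation at `(x, u)` -/
noncomputable def ev (x u : R) : k[X][X] →+* R :=
  eval₂RingHom ((aeval x : k[X] →ₐ[k] R) : k[X] →+* R) u

lemma ev_apply (x u : R) (p : k[X][X]) :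
    ev x u p = eval₂ ((aeval x : k[X] →ₐ[k] R) : k[X] →+* R) u p := rfl

lemma ev_C (x u : R) (p : k[X]) : ev x u (C p) = aeval x p := by
  rw [ev_apply, eval₂_C]; rfl

lemma ev_X (x u : R) : ev (k := k) x u X = u := by
  rw [ev_apply, eval₂_X]

lemma ev_comp (x u : R) (q G : k[X][X]) : ev x u (q.comp G) = ev x (ev x u G) q := by
  rw [ev_apply, ev_apply, ev_apply, eval₂_comp]

end

theorem stRes : StRes := by
  intro k R _ _ _ x u F hP b
  have hsurj : ∀ z : R, ∃ p : k[X][X], ev x u p = z := hP.surj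
  have hker : ∀ p : k[X][X], ev x u p = 0 ↔ F ∣ p := hP.ker
  have hsub : ∀ P : k[X][X], ∃ W : k[X][X],
      ev x u P - aeval x (P.eval b) = (u - aeval x b) * ev x u W := by
    intro P
    obtain ⟨W, hW⟩ := X_sub_C_dvd_sub_C_eval (a := b) (p := P)
    refine ⟨W, ?_⟩
    have h1 := congrArg (ev x u) hW
    rw [map_sub, map_mul, map_sub, ev_C, ev_C, ev_X] at h1
    exact h1
  refine ⟨fun p => ⟨?_, ?_⟩, ?_⟩
  · rintro ⟨z, hz⟩
    obtain ⟨Y, rfl⟩ := hsurj z
    have h1 : ev x u (C p - (X - C b) * Y) = 0 := by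
      rw [map_sub, map_mul, map_sub, ev_C, ev_C, ev_X, hz, sub_self]
    have h2 := eval_dvd (x := b) ((hker _).1 h1)
    rwa [eval_sub, eval_mul, eval_sub, eval_C, eval_C, eval_X, sub_self, zero_mul,
      sub_zero] at h2
  · rintro ⟨m, rfl⟩
    obtain ⟨W, hW⟩ := hsub F
    have hF : ev x u F = 0 := (hker F).2 dvd_rfl
    rw [hF, zero_sub] at hW
    have h1 : aeval x (F.eval b) = (u - aeval x b) * (-ev x u W) := by
      rw [mul_neg, ← hW, neg_neg]
    rw [map_mul, h1, mul_assoc]
    exact dvd_mul_right _ _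
  · intro z
    obtain ⟨P, rfl⟩ := hsurj z
    obtain ⟨W, hW⟩ := hsub P
    exact ⟨P.eval b, ⟨_, hW⟩⟩

lemma sum_shift {S : Type} [CommRing S] (m : ℕ) (f : ℕ → S) (X : S) (g : ℕ → S)
    (hg : ∀ i, g (i + 1) = f i) (hg0 : g 0 = f m * X ^ (m + 1)) :
    (∑ i ∈ Finset.range (m + 1), f i * X ^ i) * X =
      ∑ i ∈ Finset.range (m + 1), g i * X ^ i := by
  rw [Finset.sum_mul, Finset.sum_range_succ (fun i => f i * X ^ i * X),
    Finset.sum_range_succ' (fun i => g i * X ^ i), hg0, pow_zero, mul_one]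
  have h1 : f m * X ^ m * X = f m * X ^ (m + 1) := by rw [mul_assoc, ← pow_succ]
  have h2 : ∑ i ∈ Finset.range m, f i * X ^ i * X = ∑ i ∈ Finset.range m, g (i + 1) * X ^ (i + 1) :=
    Finset.sum_congr rfl fun i _ => by rw [hg, mul_assoc, ← pow_succ]
  rw [h1, h2]

/-- a polynomial is a combination of `1, X, …, X ^ (ℓ - 1)` with coefficients which are
polynomials in `b + a X ^ ℓ` -/
lemma decomp {k : Type} [Field k] (m : ℕ) (a : k) (ha : a ≠ 0) (b : k[X]) (p : k[X][X]) :
    ∃ q : ℕ → k[X][X], p = ∑ i ∈ Finset.range (m + 1),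
      (q i).comp (C b + C (C a) * X ^ (m + 1)) * X ^ i := by
  set G : k[X][X] := C b + C (C a) * X ^ (m + 1) with hG
  have hXm : (C (C a⁻¹) * (X - C b) : k[X][X]).comp G = X ^ (m + 1) := by
    rw [mul_comp, sub_comp, C_comp, X_comp, C_comp, hG, add_sub_cancel_left, ← mul_assoc,
      ← C_mul, ← C_mul, inv_mul_cancel₀ ha, C_1, C_1, one_mul]
  clear_value G
  clear hG
  induction p using Polynomial.induction_on with
  | C c =>
    refine ⟨fun i => if i = 0 then C c else 0, ?_⟩
    rw [Finset.sum_range_succ']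
    simp
  | add p p' h h' =>
    obtain ⟨q, hq⟩ := h
    obtain ⟨q', hq'⟩ := h'
    refine ⟨fun i => q i + q' i, ?_⟩
    simp only [add_comp, add_mul, Finset.sum_add_distrib]
    rw [← hq, ← hq']
  | monomial n c h =>
    obtain ⟨q, hq⟩ := h
    refine ⟨fun i => if i = 0 then q m * (C (C a⁻¹) * (X - C b)) else q (i - 1), ?_⟩
    have h1 : C c * X ^ (n + 1) = (∑ i ∈ Finset.range (m + 1), (q i).comp G * X ^ i) * X := by
      rw [← hq, pow_succ, mul_assoc]
    rw [h1]
    exact sum_shift m (fun i => (q i).comp G) X _ (fun i => by simp)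
      (by
        show (if (0 : ℕ) = 0 then q m * (C (C a⁻¹) * (X - C b)) else q (0 - 1)).comp G = _
        rw [if_pos rfl, mul_comp, hXm])

/-- linear independence of the powers of the root -/
lemma indep {R : Type} [CommRing R] (m : ℕ) (π : R) (c : ℕ → R)
    (h : ∑ i ∈ Finset.range (m + 1), AdjoinRoot.of (X ^ (m + 1) - C π : R[X]) (c i) *
      AdjoinRoot.root (X ^ (m + 1) - C π : R[X]) ^ i = 0) : ∀ i ∈ Finset.range (m + 1), c i = 0 := by
  nontriviality R
  set P : R[X] := ∑ i ∈ Finset.range (m + 1), C (c i) * X ^ i with hP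
  have hmon : (X ^ (m + 1) - C π : R[X]).Monic := monic_X_pow_sub_C π (Nat.succ_ne_zero m)
  have h1 : AdjoinRoot.mk (X ^ (m + 1) - C π : R[X]) P = 0 := by
    rw [hP, map_sum]
    refine Eq.trans (Finset.sum_congr rfl fun i _ => ?_) h
    rw [map_mul, map_pow, AdjoinRoot.mk_C, AdjoinRoot.mk_X]
  rw [AdjoinRoot.mk_eq_zero] at h1
  have hdeg : P.degree < (X ^ (m + 1) - C π : R[X]).degree := by
    rw [degree_X_pow_sub_C (Nat.succ_pos m)]
    refine lt_of_le_of_lt (degree_sum_le _ _) ?_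
    rw [Finset.sup_lt_iff (WithBot.bot_lt_coe _)]
    intro i hi
    refine lt_of_le_of_lt (degree_C_mul_X_pow_le _ _) ?_
    exact_mod_cast Finset.mem_range.1 hi
  have h2 : P = 0 := by
    by_contra hne
    exact hmon.not_dvd_of_degree_lt hne hdeg h1
  intro i hi
  have h3 : P.coeff i = c i := by
    rw [hP, finsetSum_coeff]
    rw [Finset.sum_eq_single i]
    · rw [coeff_C_mul, coeff_X_pow, if_pos rfl, mul_one]
    · intro j _ hj
      rw [coeff_C_mul, coeff_X_pow, if_neg hj.symm, mul_zero]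
    · intro hi'
      exact absurd hi hi'
  rw [← h3, h2, coeff_zero]

theorem stPres : StPres := by
  intro k R _ _ _ x u π F ℓ a b hℓ ha hu hP
  obtain ⟨m, rfl⟩ : ∃ m, ℓ = m + 1 := ⟨ℓ - 1, by omega⟩
  set f : R[X] := X ^ (m + 1) - C π with hf
  set G : k[X][X] := C b + C (C a) * X ^ (m + 1) with hG
  have hsurj : ∀ z : R, ∃ p : k[X][X], ev x u p = z := hP.surj
  have hker : ∀ p : k[X][X], ev x u p = 0 ↔ F ∣ p := hP.ker
  set x' : AdjoinRoot f := algebraMap R (AdjoinRoot f) x with hx'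
  set r : AdjoinRoot f := AdjoinRoot.root f with hr
  have hroot : r ^ (m + 1) = algebraMap R (AdjoinRoot f) π := by
    have h1 : AdjoinRoot.mk f (X ^ (m + 1) - C π) = 0 := AdjoinRoot.mk_self
    have h2 : AdjoinRoot.mk f (X ^ (m + 1) - C π) =
        r ^ (m + 1) - algebraMap R (AdjoinRoot f) π := by
      rw [map_sub, map_pow, AdjoinRoot.mk_X, AdjoinRoot.mk_C]
      rfl
    rw [h1] at h2
    exact (sub_eq_zero.1 h2.symm)
  have hae : ∀ p : k[X], aeval x' p = algebraMap R (AdjoinRoot f) (aeval x p) := fun p => by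
    rw [hx', aeval_algebraMap_apply]
  have hevG : ev (k := k) x' r G = algebraMap R (AdjoinRoot f) u := by
    rw [hG, map_add, map_mul, map_pow, ev_C, ev_C, ev_X, hroot, hae, hae, hu, map_add, map_mul,
      aeval_C]
  have hev : ∀ q : k[X][X], ev x' r (q.comp G) = algebraMap R (AdjoinRoot f) (ev x u q) := by
    intro q
    rw [ev_comp, hevG]
    have h3 : ((algebraMap R (AdjoinRoot f)).comp (ev x u)) =
        ev (k := k) x' (algebraMap R (AdjoinRoot f) u) := by
      refine Polynomial.ringHom_ext' ?_ ?_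
      · refine RingHom.ext fun p => ?_
        show algebraMap R (AdjoinRoot f) (ev x u (C p)) = ev (k := k) x' _ (C p)
        rw [ev_C, ev_C, hae]
      · show algebraMap R (AdjoinRoot f) (ev x u X) = ev (k := k) x' _ X
        rw [ev_X, ev_X]
    rw [← h3]
    rfl
  refine ⟨?_, ?_⟩
  · intro z
    show ∃ p : k[X][X], ev x' r p = z
    induction z using AdjoinRoot.induction_on with
    | ih P =>
    induction P using Polynomial.induction_on' with
    | add P P' h h' =>
      obtain ⟨p, hp⟩ := h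
      obtain ⟨p', hp'⟩ := h'
      exact ⟨p + p', by rw [map_add, hp, hp', map_add]⟩
    | monomial n c =>
      obtain ⟨y, hy⟩ := hsurj c
      refine ⟨y.comp G * X ^ n, ?_⟩
      rw [map_mul, map_pow, hev, ev_X, hy, ← C_mul_X_pow_eq_monomial, map_mul, map_pow,
        AdjoinRoot.mk_C, AdjoinRoot.mk_X]
      rfl
  · intro p
    show ev x' r p = 0 ↔ F.comp G ∣ p
    constructor
    · intro h
      obtain ⟨q, hq⟩ := decomp m a ha b p
      have h4 : ∑ i ∈ Finset.range (m + 1), AdjoinRoot.of f (ev x u (q i)) * r ^ i = 0 := by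
        rw [← h, hq, map_sum]
        refine Finset.sum_congr rfl fun i _ => ?_
        rw [map_mul, map_pow, ev_X, ← hG, hev]
        rfl
      have h5 := indep m π (fun i => ev x u (q i)) h4
      rw [hq]
      refine Finset.dvd_sum fun i hi => ?_
      obtain ⟨s, hs⟩ := (hker (q i)).1 (h5 i hi)
      rw [hs, mul_comp, ← hG, mul_assoc]
      exact dvd_mul_right _ _
    · rintro ⟨s, rfl⟩
      rw [map_mul, hev, (hker F).2 dvd_rfl, map_zero, zero_mul]

theorem stPres0 : StPres0 := by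
  intro k _ g q hq
  set f : k[X][X] := X ^ q - C (-g) with hf
  have hfe : f = C g + X ^ q := by
    rw [hf, map_neg, sub_neg_eq_add, add_comm]
  have hae : ∀ p : k[X], aeval (algebraMap k[X] (AdjoinRoot f) X) p =
      algebraMap k[X] (AdjoinRoot f) p := fun p => by
    rw [aeval_algebraMap_apply, aeval_X_left_apply]
  have hev : ev (k := k) (algebraMap k[X] (AdjoinRoot f) X) (AdjoinRoot.root f) =
      AdjoinRoot.mk f := by
    refine Polynomial.ringHom_ext' ?_ ?_
    · refine RingHom.ext fun p => ?_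
      show ev _ _ (C p) = AdjoinRoot.mk f (C p)
      rw [ev_C, hae, AdjoinRoot.mk_C]
      rfl
    · show ev _ _ X = AdjoinRoot.mk f X
      rw [ev_X, AdjoinRoot.mk_X]
  refine ⟨?_, ?_⟩
  · intro z
    obtain ⟨p, hp⟩ := AdjoinRoot.mk_surjective z
    refine ⟨p, ?_⟩
    show ev _ _ p = z
    rw [hev, hp]
  · intro p
    show ev _ _ p = 0 ↔ _
    rw [hev, AdjoinRoot.mk_eq_zero, hfe]

end Pool.Agent.Y46.FT
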