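import Pool.Agent.Y160.FT.Stmts2

/-!
# Existence by the Chinese remainder theorem (job FT-Ex2)
-/

set_option autoImplicit false

open Polynomial IsDedekindDomain WithZero

namespace Pool.Agent.Y46.FT

lemma crt {O : Type} [CommRing O] [IsDedekindDomain O] {ι : Type} [Finite ι]
    (v : ι → HeightOneSpectrum O) (hv : Function.Injective v) (e : ι → ℕ) (x : ι → O) :
    ∃ y : O, ∀ i, (v i).intValuation (y - x i) ≤ exp (-(e i : ℤ)) := by
  classical
  have := Fintype.ofFinite ι
  obtain ⟨y, hy⟩ := IsDedekindDomain.exists_forall_sub_mem_ideal (s := (Finset.univ : Finset ι))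
    (fun i => (v i).asIdeal) e (fun i _ => (v i).prime)
    (fun i _ j _ hij h => hij (hv (HeightOneSpectrum.ext h))) (fun i => x i)
  exact ⟨y, fun i => ((v i).intValuation_le_pow_iff_mem _ _).2 (hy i (Finset.mem_univ i))⟩

lemma val_eq_of_sub {O : Type} [CommRing O] [IsDedekindDomain O] (v : HeightOneSpectrum O)
    {x y : O} (h : v.intValuation (y - x) < v.intValuation x) :
    v.intValuation y = v.intValuation x := by
  have h1 := Valuation.map_add_eq_of_lt_left v.intValuation h
  rwa [add_sub_cancel] at h1

lemma exp_two_lt : exp (-(2 : ℤ)) < exp (-1 : ℤ) := by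
  rw [exp_lt_exp]; norm_num

lemma exp_two_lt_one : exp (-(2 : ℤ)) < (1 : WithZero (Multiplicative ℤ)) := by
  rw [← exp_zero, exp_lt_exp]; norm_num

theorem stEx2 : Pool.Agent.Y160.FT.StEx2 := by
  classical
  intro q m O _ _ hinf
  have hS := hinf m
  -- distinct primes
  let ι := Option (Fin m × Fin m)
  let emb : ι ↪ ℕ := (Fintype.equivFin ι).toEmbedding.trans
    ⟨fun n => (n : ℕ), Fin.val_injective⟩
  let w : ι ↪ {v : HeightOneSpectrum O | ∃ f : Fin m → O, ∀ i j, i ≠ j →
    f i - f j ∉ v.asIdeal} := emb.trans (hS.natEmbedding _)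
  let v : ι → HeightOneSpectrum O := fun i => (w i : HeightOneSpectrum O)
  have hv : Function.Injective v := Subtype.val_injective.comp w.injective
  have hf : ∀ i, ∃ f : Fin m → O, ∀ a b, a ≠ b → f a - f b ∉ (v i).asIdeal :=
    fun i => (w i).2
  choose f hf using hf
  have hπ : ∀ i, ∃ π : O, (v i).intValuation π = exp (-1 : ℤ) :=
    fun i => (v i).intValuation_exists_uniformizer
  choose π hπ using hπ
  -- the values
  let t : Fin m → ι → O := fun a e => match e with
    | none => 0
    | some (i, j) => if a = j then f (some (i, j)) i + π (some (i, j)) else f (some (i, j)) a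
  let ex : ι → ℕ := fun e => match e with
    | none => q
    | some _ => 2
  have hρ : ∀ a, ∃ y : O, ∀ e, (v e).intValuation (y - t a e) ≤ exp (-(ex e : ℤ)) :=
    fun a => crt v hv ex (t a)
  choose ρ hρ using hρ
  obtain ⟨b, hb⟩ := crt v hv (fun _ => 2) (fun e => match e with
    | none => π none
    | some _ => 0)
  have hsub : ∀ (i j a c : Fin m), (v (some (i, j))).intValuation
      ((ρ a - ρ c) - (t a (some (i, j)) - t c (some (i, j)))) ≤ exp (-(2 : ℤ)) := by
    intro i j a c
    have h1 := hρ a (some (i, j))
    have h2 := hρ c (some (i, j))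
    have h3 : (ρ a - ρ c) - (t a (some (i, j)) - t c (some (i, j))) =
      (ρ a - t a (some (i, j))) - (ρ c - t c (some (i, j))) := by ring
    rw [h3]
    exact (Valuation.map_sub _ _ _).trans (max_le h1 h2)
  refine ⟨ρ, v none, fun i j => v (some (i, j)), b, ?_, ?_, ?_, ?_, ?_⟩
  · intro a
    have := hρ a none
    simpa [t, ex] using this
  · intro i j hij
    have h1 := hsub i j i j
    have h2 : t i (some (i, j)) - t j (some (i, j)) = - π (some (i, j)) := by
      simp only [t, if_neg hij, if_true]
      ring
    rw [h2] at h1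
    have h3 : (v (some (i, j))).intValuation (-π (some (i, j))) = exp (-1 : ℤ) := by
      rw [Valuation.map_neg, hπ]
    rw [← h3]
    apply val_eq_of_sub
    rw [h3]
    exact h1.trans_lt exp_two_lt
  · intro i j a c hij hac h1 h2
    have h3 := hsub i j a c
    have h4 : (v (some (i, j))).intValuation (t a (some (i, j)) - t c (some (i, j))) = 1 := by
      have h5 : ∃ a' c' : Fin m, a' ≠ c' ∧
          ((t a (some (i, j)) - t c (some (i, j))) = f (some (i, j)) a' - f (some (i, j)) c' ∨
          (t a (some (i, j)) - t c (some (i, j))) =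
            f (some (i, j)) a' - f (some (i, j)) c' + π (some (i, j)) ∨
          (t a (some (i, j)) - t c (some (i, j))) =
            f (some (i, j)) a' - f (some (i, j)) c' + -π (some (i, j))) := by
        by_cases ha : a = j
        · have hc : c ≠ j := fun h => hac (ha.trans h.symm)
          refine ⟨i, c, fun h => h2 ⟨ha, h.symm⟩, Or.inr (Or.inl ?_)⟩
          simp only [t, if_pos ha, if_neg hc]
          ring
        · by_cases hc : c = j
          · refine ⟨a, i, fun h => h1 ⟨h, hc⟩, Or.inr (Or.inr ?_)⟩
            simp only [t, if_neg ha, if_pos hc]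
            ring
          · refine ⟨a, c, hac, Or.inl ?_⟩
            simp only [t, if_neg ha, if_neg hc]
      obtain ⟨a', c', hac', h6⟩ := h5
      have h7 : (v (some (i, j))).intValuation (f (some (i, j)) a' - f (some (i, j)) c') = 1 :=
        HeightOneSpectrum.intValuation_eq_one_iff.2 (hf _ a' c' hac')
      have h8 : exp (-1 : ℤ) < (1 : WithZero (Multiplicative ℤ)) := by
        rw [← exp_zero, exp_lt_exp]; norm_num
      rcases h6 with h6 | h6 | h6
      · rw [h6, h7]
      · rw [h6, ← h7]
        apply val_eq_of_sub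
        rw [add_sub_cancel_left, h7, hπ]
        exact h8
      · rw [h6, ← h7]
        apply val_eq_of_sub
        rw [add_sub_cancel_left, h7, Valuation.map_neg, hπ]
        exact h8
    rw [← h4]
    apply val_eq_of_sub
    rw [h4]
    exact h3.trans_lt exp_two_lt_one
  · have h1 := hb none
    simp only at h1
    rw [← hπ none]
    apply val_eq_of_sub
    rw [hπ none]
    exact lt_of_le_of_lt h1 exp_two_lt
  · intro i j _
    have h1 := hb (some (i, j))
    simpa using h1

end Pool.Agent.Y46.FT
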